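import Mathlib

/-!
# Squares in `ℚ_p`, tools
-/

set_option autoImplicit false

namespace Pool.Agent.L7h75.EA

open Polynomial

variable {p : ℕ} [hp : Fact p.Prime]

theorem two_norm (h2 : p ≠ 2) : ‖(2 : ℚ_[p])‖ = 1 := by
  have h := Padic.norm_natCast_eq_one_iff (p := p) (n := 2)
  have h1 : p.Coprime 2 := (Nat.coprime_primes hp.1 Nat.prime_two).2 h2
  have h3 := h.2 h1
  exact_mod_cast h3

theorem sq_one_add (h2 : p ≠ 2) (z : ℚ_[p]) (hz : ‖z‖ < 1) : IsSquare (1 + z) := by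
  let w : ℤ_[p] := ⟨z, hz.le⟩
  have hw : ‖w‖ < 1 := hz
  let F : ℤ_[p][X] := X ^ 2 - C (1 + w)
  have h1 : F.aeval (1 : ℤ_[p]) = -w := by
    simp [F]
  have h2' : (derivative F).aeval (1 : ℤ_[p]) = 2 := by
    simp [F]
    norm_num
  have h3 : ‖(2 : ℤ_[p])‖ = 1 := two_norm h2
  have h4 : ‖F.aeval (1 : ℤ_[p])‖ < ‖(derivative F).aeval (1 : ℤ_[p])‖ ^ 2 := by
    rw [h1, h2', norm_neg, h3, one_pow]
    exact hw
  obtain ⟨u, hu, -⟩ := hensels_lemma h4
  have h5 : u ^ 2 = 1 + w := by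
    have : F.aeval u = u ^ 2 - (1 + w) := by simp [F]
    rw [this] at hu
    exact sub_eq_zero.1 hu
  refine ⟨(u : ℚ_[p]), ?_⟩
  have h6 := congrArg (fun t : ℤ_[p] => (t : ℚ_[p])) h5
  simp only [PadicInt.coe_pow, PadicInt.coe_add, PadicInt.coe_one] at h6
  rw [← sq, h6]

theorem near_sq (h2 : p ≠ 2) {u v : ℚ_[p]} (h : ‖u - v‖ < ‖v‖) : IsSquare u ↔ IsSquare v := by
  have hv : v ≠ 0 := by
    rintro rfl
    rw [norm_zero] at h
    exact absurd (norm_nonneg _) (not_le.2 h)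
  have h1 : ‖(u - v) / v‖ < 1 := by
    rw [norm_div, div_lt_one (norm_pos_iff.2 hv)]
    exact h
  obtain ⟨w, hw⟩ := sq_one_add h2 _ h1
  have h3 : u = v * (w * w) := by
    rw [← hw]
    field_simp
    ring
  have hu : u ≠ 0 := by
    rintro rfl
    rw [zero_sub, norm_neg] at h
    exact lt_irrefl _ h
  have hw0 : w ≠ 0 := by
    rintro rfl
    rw [mul_zero, mul_zero] at h3
    exact hu h3
  constructor
  · rintro ⟨y, hy⟩
    refine ⟨y / w, ?_⟩
    rw [h3] at hy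
    field_simp
    rw [sq, sq, ← hy]
  · rintro ⟨y, hy⟩
    exact ⟨y * w, by rw [h3, hy]; ring⟩

/-- the dominating term of a square is a square -/
theorem sq_of_dom (h2 : p ≠ 2) {y D R : ℚ_[p]} (h : y ^ 2 = D + R) (hR : ‖R‖ < ‖D‖) :
    IsSquare D := by
  have h1 : ‖y ^ 2 - D‖ < ‖D‖ := by
    rw [h, add_sub_cancel_left]
    exact hR
  exact (near_sq h2 h1).1 ⟨y, sq y⟩

theorem add_lt {x y : ℚ_[p]} {c : ℝ} (hx : ‖x‖ < c) (hy : ‖y‖ < c) : ‖x + y‖ < c :=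
  lt_of_le_of_lt (Padic.nonarchimedean x y) (max_lt hx hy)

theorem even_of_sq {z : ℚ_[p]} (h0 : z ≠ 0) (h : IsSquare z) : Even z.valuation := by
  obtain ⟨y, rfl⟩ := h
  have hy : y ≠ 0 := fun h => h0 (by rw [h, zero_mul])
  rw [Padic.valuation_mul hy hy]
  exact ⟨_, rfl⟩

theorem sq_mul_left {x z : ℚ_[p]} (hz : z ≠ 0) (h : IsSquare z) : IsSquare (z * x) ↔ IsSquare x := by
  obtain ⟨w, rfl⟩ := h
  have hw : w ≠ 0 := fun h => hz (by rw [h, zero_mul])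
  constructor
  · rintro ⟨y, hy⟩
    refine ⟨y / w, ?_⟩
    field_simp
    rw [sq, sq, ← hy]
    ring
  · rintro ⟨y, rfl⟩
    exact ⟨w * y, by ring⟩

theorem sq_int (h2 : p ≠ 2) {n : ℤ} (hn : ¬ (p : ℤ) ∣ n) :
    IsSquare (n : ℚ_[p]) ↔ jacobiSym n p = 1 := by
  have h0 : ((n : ℤ) : ZMod p) ≠ 0 := by
    rw [Ne, ZMod.intCast_zmod_eq_zero_iff_dvd]
    exact hn
  have hn1 : ‖(n : ℚ_[p])‖ = 1 := by
    rcases (Padic.norm_int_le_one (p := p) n).lt_or_eq with h | h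
    · exact absurd (Padic.norm_intCast_lt_one_iff.1 h) hn
    · exact h
  rw [← jacobiSym.legendreSym.to_jacobiSym, legendreSym.eq_one_iff p h0]
  constructor
  · rintro ⟨y, hy⟩
    have hy1 : ‖y‖ * ‖y‖ = 1 := by rw [← norm_mul, ← hy, hn1]
    have hy2 : ‖y‖ ≤ 1 := by
      by_contra h
      push Not at h
      nlinarith
    let Y : ℤ_[p] := ⟨y, hy2⟩
    have h3 : (n : ℤ_[p]) = Y * Y := by
      apply Subtype.ext
      rw [PadicInt.coe_mul]
      exact_mod_cast hy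
    refine ⟨PadicInt.toZMod Y, ?_⟩
    rw [← map_mul, ← h3, map_intCast]
  · rintro ⟨u, hu⟩
    obtain ⟨m, rfl⟩ := ZMod.intCast_surjective u
    have h3 : (p : ℤ) ∣ n - m * m := by
      rw [← ZMod.intCast_zmod_eq_zero_iff_dvd]
      push_cast
      rw [hu, sub_self]
    have h4 : ‖(n : ℚ_[p]) - (m : ℚ_[p]) * m‖ < 1 := by
      have := Padic.norm_intCast_lt_one_iff.2 h3
      push_cast at this
      exact this
    have h5 : ¬ (p : ℤ) ∣ m := by
      intro h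
      apply hn
      have := dvd_add h3 (h.mul_right m)
      rwa [sub_add_cancel] at this
    have h6 : ‖(m : ℚ_[p])‖ = 1 := by
      rcases (Padic.norm_int_le_one (p := p) m).lt_or_eq with h | h
      · exact absurd (Padic.norm_intCast_lt_one_iff.1 h) h5
      · exact h
    apply (near_sq h2 (v := (m : ℚ_[p]) * m) ?_).2 ⟨_, rfl⟩
    rw [norm_mul, h6, one_mul]
    exact h4

theorem norm_int_one {n : ℤ} (hn : ¬ (p : ℤ) ∣ n) : ‖(n : ℚ_[p])‖ = 1 := by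
  rcases (Padic.norm_int_le_one (p := p) n).lt_or_eq with h | h
  · exact absurd (Padic.norm_intCast_lt_one_iff.1 h) hn
  · exact h

theorem val_eq_of_norm {x z : ℚ_[p]} (hx : x ≠ 0) (hz : z ≠ 0) (h : ‖x‖ = ‖z‖) :
    x.valuation = z.valuation := by
  rw [Padic.norm_eq_zpow_neg_valuation hx, Padic.norm_eq_zpow_neg_valuation hz] at h
  have h1 : (1 : ℝ) < p := by exact_mod_cast hp.1.one_lt
  have := zpow_right_injective₀ (by linarith) h1.ne' h
  exact neg_inj.1 this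

theorem norm_one_of_val {x : ℚ_[p]} (hx : x ≠ 0) : ‖x‖ = 1 ↔ x.valuation = 0 := by
  constructor
  · intro h
    have := val_eq_of_norm hx one_ne_zero (h.trans norm_one.symm)
    rwa [Padic.valuation_one] at this
  · intro h
    rw [Padic.norm_eq_zpow_neg_valuation hx, h, neg_zero, zpow_zero]

/-- the cubic, large `x` -/
theorem cubic_large (h2 : p ≠ 2) {a b x y : ℚ_[p]} (ha : ‖a‖ ≤ 1) (hb : ‖b‖ ≤ 1) (hx : 1 < ‖x‖)
    (h : y ^ 2 = x * (x ^ 2 + a * x + b)) : IsSquare x := by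
  have hx0 : x ≠ 0 := norm_pos_iff.1 (by linarith)
  have h1 : IsSquare (x ^ 3) := by
    apply sq_of_dom h2 (y := y) (R := a * x ^ 2 + b * x) (by rw [h]; ring)
    apply add_lt
    · rw [norm_mul, norm_pow, norm_pow]
      have h3 : ‖x‖ ^ 2 < ‖x‖ ^ 3 := pow_lt_pow_right₀ hx (by norm_num)
      have h4 : 0 ≤ ‖x‖ ^ 2 := by positivity
      nlinarith
    · rw [norm_mul, norm_pow]
      have h3 : ‖x‖ ^ 1 < ‖x‖ ^ 3 := pow_lt_pow_right₀ hx (by norm_num)
      have h4 : 0 ≤ ‖x‖ := norm_nonneg _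
      rw [pow_one] at h3
      nlinarith
  have h3 : x ^ 3 = x ^ 2 * x := by ring
  rw [h3] at h1
  exact (sq_mul_left (pow_ne_zero 2 hx0) ⟨x, sq x⟩).1 h1

end Pool.Agent.L7h75.EA
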