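import Pool.Agent.L7h19.EA.Stm
import Pool.Agent.L7h75.EA.Tl

/-!
# Project EA: part N1
-/

set_option autoImplicit false

namespace Pool.Agent.L7h75.EA

open Pool.Agent.L7h19.EA

theorem s_N1 (hT : S_TOR) : S_N1 := by
  intro p hp a b s h2 hb ha hpb
  have hb0 : (b : ℚ_[p]) ≠ 0 := by exact_mod_cast hb
  have ha0 : (a : ℚ_[p]) ≠ 0 := by
    intro h
    apply ha
    have : a = 0 := by exact_mod_cast h
    rw [this]
    exact dvd_zero _
  have hna : ‖(a : ℚ_[p])‖ = 1 := norm_int_one ha
  have hnb : ‖(b : ℚ_[p])‖ < 1 := Padic.norm_intCast_lt_one_iff.2 hpb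
  have hvb : (b : ℚ_[p]).valuation = padicValInt p b := Padic.valuation_intCast b
  have hp0 : (p : ℚ_[p]) ≠ 0 := by exact_mod_cast hp.1.ne_zero
  refine ⟨⟨?_, ?_⟩, fun _ _ _ h => absurd h (by simp), fun _ _ _ h => absurd h (by simp)⟩
  · rintro ⟨hp', x, ⟨hx, y, hy⟩, hodd⟩
    rw [Bool.or_eq_true, decide_eq_true_iff]
    by_contra hcon
    push Not at hcon
    obtain ⟨hc1, hc2⟩ := hcon
    have hc3 : ¬ IsSquare (a : ℚ_[p]) := by
      intro h
      apply hc2
      unfold Pool.Agent.L7h19.EA.sq
      exact decide_eq_true ((sq_int h2 ha).1 h)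
    have hne : ‖x‖ ≠ 1 := by
      intro h
      have := (norm_one_of_val hx).1 h
      rw [this] at hodd
      exact absurd hodd (by decide)
    have hxp : 0 < ‖x‖ := norm_pos_iff.2 hx
    rcases lt_or_gt_of_ne hne with h | h
    · rcases lt_trichotomy ‖(b : ℚ_[p])‖ ‖x‖ with h3 | h3 | h3
      · -- `a x²` dominates
        have h4 : IsSquare ((a : ℚ_[p]) * x ^ 2) := by
          apply sq_of_dom h2 (y := y) (R := x ^ 3 + b * x) (by rw [hy]; ring)
          rw [norm_mul, hna, one_mul, norm_pow]
          apply add_lt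
          · rw [norm_pow]
            nlinarith [sq_nonneg ‖x‖, mul_pos hxp hxp]
          · rw [norm_mul]
            nlinarith
        rw [mul_comm] at h4
        exact hc3 ((sq_mul_left (pow_ne_zero 2 hx) ⟨x, pow_two x⟩).1 h4)
      · have h4 := val_eq_of_norm hb0 hx h3
        rw [hvb] at h4
        apply hc1
        rw [← h4] at hodd
        exact_mod_cast hodd
      · have h4 : IsSquare ((b : ℚ_[p]) * x) := by
          apply sq_of_dom h2 (y := y) (R := x ^ 3 + a * x ^ 2) (by rw [hy]; ring)
          rw [norm_mul]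
          apply add_lt
          · rw [norm_pow]
            nlinarith [sq_nonneg ‖x‖, mul_pos hxp hxp]
          · rw [norm_mul, hna, one_mul, norm_pow]
            nlinarith
        have h5 := even_of_sq (mul_ne_zero hb0 hx) h4
        rw [Padic.valuation_mul hb0 hx, hvb] at h5
        apply hc1
        have h6 : Odd ((padicValInt p b : ℤ)) := by
          by_contra h7
          rw [Int.not_odd_iff_even] at h7
          exact (Int.not_even_iff_odd.2 hodd) ((Int.even_add.1 h5).1 h7)
        exact_mod_cast h6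
    · have h4 := even_of_sq hx (cubic_large h2 hna.le hnb.le h hy)
      exact (Int.not_even_iff_odd.2 hodd) h4
  · intro h
    rw [Bool.or_eq_true, decide_eq_true_iff] at h
    by_cases hodd : Odd (padicValInt p b)
    · obtain ⟨k, hk⟩ := hT p a b h2 hb
      refine ⟨hp, _, hk, ?_⟩
      rw [Padic.valuation_mul hb0 (pow_ne_zero _ hp0), hvb, Padic.valuation_pow,
        Padic.valuation_p, mul_one]
      have h3 : Odd (padicValInt p b : ℤ) := by exact_mod_cast hodd
      apply h3.add_even
      push_cast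
      exact even_two_mul _
    · have h3 : IsSquare (a : ℚ_[p]) := by
        apply (sq_int h2 ha).2
        rcases h with h | h
        · exact absurd h hodd
        · exact of_decide_eq_true h
      have h4 : (p : ℤ) ^ 2 ∣ b := by
        obtain ⟨c, rfl⟩ := hpb
        rw [pow_two]
        apply mul_dvd_mul_left
        by_contra hc
        apply hodd
        have hc0 : c ≠ 0 := by
          rintro rfl
          exact hc (dvd_zero _)
        have h5 : padicValInt p ((p : ℤ) * c) = 1 := by
          rw [padicValInt.mul (by exact_mod_cast hp.1.ne_zero) hc0,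
            padicValInt.eq_zero_of_not_dvd hc, add_zero]
          exact padicValInt.self hp.1.one_lt
        rw [h5]
        exact odd_one
      refine ⟨hp, (p : ℚ_[p]), ⟨hp0, ?_⟩, ?_⟩
      · obtain ⟨c, rfl⟩ := h4
        have h5 : IsSquare ((p : ℚ_[p]) * ((p : ℚ_[p]) ^ 2 + a * p + ((p : ℤ) ^ 2 * c : ℤ))) := by
          apply (near_sq h2 (v := (p : ℚ_[p]) ^ 2 * a) ?_).2
            ((sq_mul_left (pow_ne_zero 2 hp0) ⟨(p : ℚ_[p]), pow_two _⟩).2 h3)
          have h6 : (p : ℚ_[p]) * ((p : ℚ_[p]) ^ 2 + a * p + ((p : ℤ) ^ 2 * c : ℤ)) -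
              (p : ℚ_[p]) ^ 2 * a = (p : ℚ_[p]) ^ 2 * (p * (1 + c)) := by
            push_cast
            ring
          rw [h6, norm_mul, norm_mul ((p : ℚ_[p]) ^ 2) (a : ℚ_[p]), hna, mul_one]
          have h7 : 0 < ‖(p : ℚ_[p]) ^ 2‖ := norm_pos_iff.2 (pow_ne_zero 2 hp0)
          have h8 : ‖(p : ℚ_[p]) * (1 + c)‖ < 1 := by
            have := (Padic.norm_intCast_lt_one_iff (p := p) (k := (p : ℤ) * (1 + c))).2
              (dvd_mul_right _ _)
            push_cast at this
            exact this
          nlinarith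
        obtain ⟨y, hy⟩ := h5
        exact ⟨y, by rw [pow_two, ← hy]⟩
      · rw [Padic.valuation_p]
        exact odd_one

end Pool.Agent.L7h75.EA
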