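import Pool.Agent.L7h19.EA.Stm
import Pool.Agent.L7h75.EA.Tl

/-!
# Project EA: part N2
-/

set_option autoImplicit false

namespace Pool.Agent.L7h75.EA

open Pool.Agent.L7h19.EA

/-- small `x`, `b` a unit -/
theorem cubic_small {p : ℕ} [hp : Fact p.Prime] (h2 : p ≠ 2) {a b x y : ℚ_[p]} (ha : ‖a‖ ≤ 1)
    (hb : ‖b‖ = 1) (hx0 : x ≠ 0) (hx : ‖x‖ < 1)
    (h : y ^ 2 = x * (x ^ 2 + a * x + b)) : IsSquare (b * x) := by
  have hxp : 0 < ‖x‖ := norm_pos_iff.2 hx0
  apply sq_of_dom h2 (y := y) (R := x ^ 3 + a * x ^ 2) (by rw [h]; ring)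
  rw [norm_mul, hb, one_mul]
  apply add_lt
  · rw [norm_pow]
    nlinarith [mul_pos hxp hxp]
  · rw [norm_mul, norm_pow]
    have h3 : ‖a‖ * ‖x‖ ^ 2 ≤ 1 * ‖x‖ ^ 2 := by
      apply mul_le_mul_of_nonneg_right ha (by positivity)
    nlinarith

theorem s_N2 : S_N2 := by
  intro p hp a b s h2 hc ha hb hpc
  have hna : ‖(a : ℚ_[p])‖ = 1 := norm_int_one ha
  have hnb : ‖(b : ℚ_[p])‖ = 1 := norm_int_one hb
  have hn2 : ‖(2 : ℚ_[p])‖ = 1 := two_norm h2
  have h20 : (2 : ℚ_[p]) ≠ 0 := two_ne_zero
  have ha0 : (a : ℚ_[p]) ≠ 0 := by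
    intro h; rw [h, norm_zero] at hna; exact zero_ne_one hna
  have hb0 : (b : ℚ_[p]) ≠ 0 := by
    intro h; rw [h, norm_zero] at hnb; exact zero_ne_one hnb
  have hc0 : ((a ^ 2 - 4 * b : ℤ) : ℚ_[p]) ≠ 0 := by exact_mod_cast hc
  have hnc : ‖((a ^ 2 - 4 * b : ℤ) : ℚ_[p])‖ < 1 := Padic.norm_intCast_lt_one_iff.2 hpc
  have hvb : (b : ℚ_[p]).valuation = 0 := (norm_one_of_val hb0).1 hnb
  have hvc : ((a ^ 2 - 4 * b : ℤ) : ℚ_[p]).valuation = padicValInt p (a ^ 2 - 4 * b) :=
    Padic.valuation_intCast _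
  -- `b` is a square
  have hbsq : IsSquare (b : ℚ_[p]) := by
    apply (near_sq h2 (v := ((a : ℚ_[p]) / 2) * (a / 2)) ?_).2 ⟨_, rfl⟩
    have h3 : (b : ℚ_[p]) - a / 2 * (a / 2) = -((a ^ 2 - 4 * b : ℤ) : ℚ_[p]) / (2 * 2) := by
      push_cast
      field_simp
      ring
    rw [h3, norm_div, norm_neg, norm_mul, norm_mul, norm_div, hn2, hna]
    simpa using hnc
  -- units
  have hunit : ∀ x : ℚ_[p], Pt p a b x → ‖x‖ ≠ 1 → Even x.valuation ∧ IsSquare x := by
    rintro x ⟨hx, y, hy⟩ hne
    rcases lt_or_gt_of_ne hne with h | h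
    · have h3 := cubic_small h2 hna.le hnb hx h hy
      have h4 := (sq_mul_left hb0 hbsq).1 h3
      exact ⟨even_of_sq hx h4, h4⟩
    · have h4 := cubic_large h2 hna.le hnb.le h hy
      exact ⟨even_of_sq hx h4, h4⟩
  refine ⟨⟨?_, fun h => absurd h (by simp)⟩, ?_, fun _ _ _ _ h => absurd h (by simp)⟩
  · rintro ⟨hp', x, hx, hodd⟩
    exfalso
    have hne : ‖x‖ ≠ 1 := by
      intro h
      have := (norm_one_of_val hx.1).1 h
      rw [this] at hodd
      exact absurd hodd (by decide)
    exact (Int.not_even_iff_odd.2 hodd) (hunit x hx hne).1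
  · rintro x hx - hr
    by_cases hne : ‖x‖ = 1
    · rw [Bool.or_eq_true, decide_eq_true_iff] at hr
      obtain ⟨hx0, y, hy⟩ := hx
      let w : ℚ_[p] := x + a / 2
      have hy' : y ^ 2 = x * w ^ 2 + -(x * ((a ^ 2 - 4 * b : ℤ) : ℚ_[p]) / (2 * 2)) := by
        rw [hy]
        push_cast
        simp only [w]
        field_simp
        ring
      have hR : ‖-(x * ((a ^ 2 - 4 * b : ℤ) : ℚ_[p]) / (2 * 2))‖ =
          ‖((a ^ 2 - 4 * b : ℤ) : ℚ_[p])‖ := by
        rw [norm_neg, norm_div, norm_mul, norm_mul, hn2, hne]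
        simp
      by_cases hw : ‖((a ^ 2 - 4 * b : ℤ) : ℚ_[p])‖ < ‖w‖ ^ 2
      · have h4 : IsSquare (x * w ^ 2) := by
          apply sq_of_dom h2 hy'
          rw [hR, norm_mul, hne, one_mul, norm_pow]
          exact hw
        have hw0 : w ≠ 0 := by
          intro h
          rw [h, norm_zero] at hw
          have := norm_nonneg ((a ^ 2 - 4 * b : ℤ) : ℚ_[p])
          nlinarith
        rw [mul_comm] at h4
        exact (sq_mul_left (pow_ne_zero 2 hw0) ⟨w, pow_two w⟩).1 h4
      · push Not at hw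
        have hw1 : ‖w‖ < 1 := by
          by_contra h
          push Not at h
          nlinarith
        -- `x` is near `-a / 2`
        have h5 : IsSquare x ↔ IsSquare (((-2 * a : ℤ) : ℚ_[p])) := by
          have h6 : IsSquare x ↔ IsSquare (-(a : ℚ_[p]) / 2) := by
            apply near_sq h2
            have h7 : x - -(a : ℚ_[p]) / 2 = w := by
              simp only [w]
              ring
            rw [h7, norm_div, norm_neg, hna, hn2, div_one]
            exact hw1
          rw [h6]
          have h8 : ((-2 * a : ℤ) : ℚ_[p]) = (2 ^ 2) * (-(a : ℚ_[p]) / 2) := by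
            push_cast
            ring
          rw [h8]
          exact (sq_mul_left (pow_ne_zero 2 h20) ⟨2, pow_two _⟩).symm
        rcases hr with hr | hr
        · exfalso
          -- the parity
          have h6 : ‖w‖ ^ 2 < ‖((a ^ 2 - 4 * b : ℤ) : ℚ_[p])‖ := by
            rcases hw.lt_or_eq with h | h
            · exact h
            · exfalso
              have hw0 : w ≠ 0 := by
                intro h'
                rw [h', norm_zero] at h
                apply hc0
                rw [← norm_eq_zero, ← h]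
                norm_num
              rw [← norm_pow] at h
              have h7 := val_eq_of_norm (pow_ne_zero 2 hw0) hc0 h
              rw [Padic.valuation_pow, hvc] at h7
              have h8 : Odd (padicValInt p (a ^ 2 - 4 * b) : ℤ) := by exact_mod_cast hr
              rw [← h7] at h8
              exact (Int.not_even_iff_odd.2 h8) (by push_cast; exact even_two_mul _)
          have h7 : IsSquare (-(x * ((a ^ 2 - 4 * b : ℤ) : ℚ_[p]) / (2 * 2))) := by
            apply sq_of_dom h2 (y := y) (R := x * w ^ 2) (by rw [hy', add_comm])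
            rw [hR, norm_mul, hne, one_mul, norm_pow]
            exact h6
          have h8 : -(x * ((a ^ 2 - 4 * b : ℤ) : ℚ_[p]) / (2 * 2)) ≠ 0 := by
            apply neg_ne_zero.2
            exact div_ne_zero (mul_ne_zero hx0 hc0) (mul_ne_zero h20 h20)
          have h9 := even_of_sq h8 h7
          have h10 : (-(x * ((a ^ 2 - 4 * b : ℤ) : ℚ_[p]) / (2 * 2))).valuation =
              ((a ^ 2 - 4 * b : ℤ) : ℚ_[p]).valuation := val_eq_of_norm h8 hc0 hR
          rw [h10, hvc] at h9
          have h11 : Odd (padicValInt p (a ^ 2 - 4 * b) : ℤ) := by exact_mod_cast hr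
          exact (Int.not_even_iff_odd.2 h11) h9
        · rw [h5]
          apply (sq_int h2 ?_).2
          · exact of_decide_eq_true hr
          · intro h
            rcases (Nat.prime_iff_prime_int.1 hp.1).dvd_or_dvd h with h | h
            · have h9 : ((-2 : ℤ) : ℚ_[p]) = -2 := by norm_num
              have h10 := (Padic.norm_intCast_lt_one_iff (p := p) (k := -2)).2 h
              rw [h9, norm_neg, hn2] at h10
              exact lt_irrefl _ h10
            · exact ha h
    · exact (hunit x hx hne).2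

end Pool.Agent.L7h75.EA
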