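import Pool.Agent.L7h19.EA.Stm
import Pool.Agent.L7h75.EA.Tl

/-!
# Project EA: part N6
-/

set_option autoImplicit false

namespace Pool.Agent.L7h75.EA

open Pool.Agent.L7h19.EA

section

variable {p : ℕ} [hp : Fact p.Prime]

theorem p_ne : (p : ℚ_[p]) ≠ 0 := by exact_mod_cast hp.1.ne_zero

/-- large `X = x / p` -/
theorem six_large (h2 : p ≠ 2) {A B : ℤ} {X y : ℚ_[p]} (hX : 1 < ‖X‖)
    (h : y ^ 2 = (p : ℚ_[p]) ^ 3 * (X ^ 3 + A * X ^ 2 + B * X)) : IsSquare ((p : ℚ_[p]) * X) := by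
  have hA := Padic.norm_int_le_one (p := p) A
  have hB := Padic.norm_int_le_one (p := p) B
  have hX0 : X ≠ 0 := norm_pos_iff.1 (by linarith)
  have hp3 : 0 < ‖(p : ℚ_[p]) ^ 3‖ := norm_pos_iff.2 (pow_ne_zero 3 p_ne)
  have h1 : IsSquare ((p : ℚ_[p]) ^ 3 * X ^ 3) := by
    apply sq_of_dom h2 (y := y) (R := (p : ℚ_[p]) ^ 3 * (A * X ^ 2 + B * X)) (by rw [h]; ring)
    rw [norm_mul, norm_mul]
    apply mul_lt_mul_of_pos_left _ hp3
    apply add_lt
    · rw [norm_mul, norm_pow, norm_pow]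
      have h3 : ‖X‖ ^ 2 < ‖X‖ ^ 3 := pow_lt_pow_right₀ hX (by norm_num)
      have h4 : 0 ≤ ‖X‖ ^ 2 := by positivity
      nlinarith
    · rw [norm_mul, norm_pow]
      have h3 : ‖X‖ ^ 1 < ‖X‖ ^ 3 := pow_lt_pow_right₀ hX (by norm_num)
      have h4 : 0 ≤ ‖X‖ := norm_nonneg _
      rw [pow_one] at h3
      nlinarith
  have h3 : (p : ℚ_[p]) ^ 3 * X ^ 3 = ((p : ℚ_[p]) * X) ^ 2 * (p * X) := by ring
  rw [h3] at h1
  exact (sq_mul_left (pow_ne_zero 2 (mul_ne_zero p_ne hX0)) ⟨_, pow_two _⟩).1 h1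

/-- small `X = x / p` -/
theorem six_small (h2 : p ≠ 2) {A B : ℤ} (hB : ¬ (p : ℤ) ∣ B) {X y : ℚ_[p]} (hX0 : X ≠ 0)
    (hX : ‖X‖ < 1) (h : y ^ 2 = (p : ℚ_[p]) ^ 3 * (X ^ 3 + A * X ^ 2 + B * X)) :
    IsSquare ((B : ℚ_[p]) * (p * X)) := by
  have hA := Padic.norm_int_le_one (p := p) A
  have hB1 : ‖(B : ℚ_[p])‖ = 1 := norm_int_one hB
  have hXp : 0 < ‖X‖ := norm_pos_iff.2 hX0
  have hp3 : 0 < ‖(p : ℚ_[p]) ^ 3‖ := norm_pos_iff.2 (pow_ne_zero 3 p_ne)
  have h1 : IsSquare ((p : ℚ_[p]) ^ 3 * (B * X)) := by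
    apply sq_of_dom h2 (y := y) (R := (p : ℚ_[p]) ^ 3 * (X ^ 3 + A * X ^ 2)) (by rw [h]; ring)
    rw [norm_mul, norm_mul]
    apply mul_lt_mul_of_pos_left _ hp3
    rw [norm_mul, hB1, one_mul]
    apply add_lt
    · rw [norm_pow]
      nlinarith [mul_pos hXp hXp]
    · rw [norm_mul, norm_pow]
      have h3 : ‖(A : ℚ_[p])‖ * ‖X‖ ^ 2 ≤ 1 * ‖X‖ ^ 2 :=
        mul_le_mul_of_nonneg_right hA (by positivity)
      nlinarith
  have h3 : (p : ℚ_[p]) ^ 3 * (B * X) = (p : ℚ_[p]) ^ 2 * (B * (p * X)) := by ring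
  rw [h3] at h1
  exact (sq_mul_left (pow_ne_zero 2 p_ne) ⟨_, pow_two _⟩).1 h1

/-- the unit case -/
theorem six_unit {A B : ℤ} {X y : ℚ_[p]} (hX : ‖X‖ = 1)
    (h : y ^ 2 = (p : ℚ_[p]) ^ 3 * (X ^ 3 + A * X ^ 2 + B * X)) :
    ∃ u : ℕ, u < p ∧ ‖X - u‖ < 1 ∧ (p : ℤ) ∣ (u : ℤ) ^ 2 + A * u + B := by
  have hA := Padic.norm_int_le_one (p := p) A
  have hB := Padic.norm_int_le_one (p := p) B
  have hX0 : X ≠ 0 := norm_pos_iff.1 (by linarith)
  obtain ⟨u, hu, hmem⟩ := PadicInt.exists_mem_range (⟨X, hX.le⟩ : ℤ_[p])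
  have h3 : ‖X - u‖ < 1 := by
    rw [IsLocalRing.mem_maximalIdeal, PadicInt.mem_nonunits] at hmem
    exact hmem
  have h4 : ‖X ^ 2 + A * X + B‖ < 1 := by
    by_contra hcon
    push Not at hcon
    have h5 : ‖X ^ 2 + A * X + B‖ = 1 := by
      apply le_antisymm _ hcon
      refine (Padic.nonarchimedean _ _).trans (max_le ((Padic.nonarchimedean _ _).trans
        (max_le ?_ ?_)) hB)
      · rw [norm_pow, hX, one_pow]
      · rw [norm_mul, hX, mul_one]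
        exact hA
    have h6 : y ^ 2 = (p : ℚ_[p]) ^ 3 * (X * (X ^ 2 + A * X + B)) := by rw [h]; ring
    have h7 : ‖y ^ 2‖ = ‖(p : ℚ_[p]) ^ 3‖ := by
      rw [h6, norm_mul, norm_mul, hX, h5, one_mul, mul_one]
    have hp3 : (p : ℚ_[p]) ^ 3 ≠ 0 := pow_ne_zero 3 p_ne
    have hy2 : y ^ 2 ≠ 0 := by
      intro h'
      rw [h', norm_zero] at h7
      exact hp3 (norm_eq_zero.1 h7.symm)
    have h8 := val_eq_of_norm hy2 hp3 h7
    rw [Padic.valuation_pow, Padic.valuation_pow, Padic.valuation_p] at h8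
    push_cast at h8
    omega
  refine ⟨u, hu, h3, ?_⟩
  rw [← Padic.norm_intCast_lt_one_iff (p := p)]
  have h9 : ((((u : ℤ) ^ 2 + A * u + B : ℤ)) : ℚ_[p]) =
      (X ^ 2 + A * X + B) + -((X - u) * (X + u + A)) := by
    push_cast
    ring
  rw [h9]
  apply add_lt h4
  rw [norm_neg, norm_mul]
  have h10 : ‖X + u + A‖ ≤ 1 := by
    refine (Padic.nonarchimedean _ _).trans (max_le ((Padic.nonarchimedean _ _).trans
        (max_le hX.le ?_)) hA)
    have := Padic.norm_int_le_one (p := p) (u : ℤ)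
    exact_mod_cast this
  nlinarith [norm_nonneg (X - u), norm_nonneg (X + u + A)]

end

theorem s_N6 : S_N6 := by
  intro p hp a b h2 hpa hpb hpb3 hpc3
  obtain ⟨A, rfl⟩ := hpa
  obtain ⟨B, rfl⟩ := hpb
  have hpz : (p : ℤ) ≠ 0 := by exact_mod_cast hp.1.ne_zero
  have hpc : (((p : ℤ) * A) ^ 2 - 4 * ((p : ℤ) ^ 2 * B)) = (p : ℤ) ^ 2 * (A ^ 2 - 4 * B) := by ring
  rw [hpc] at hpc3 ⊢
  rw [Int.mul_ediv_cancel_left _ hpz, Int.mul_ediv_cancel_left _ (pow_ne_zero 2 hpz),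
    Int.mul_ediv_cancel_left _ (pow_ne_zero 2 hpz)]
  have hB : ¬ (p : ℤ) ∣ B := by
    intro h
    apply hpb3
    rw [pow_succ]
    exact mul_dvd_mul_left _ h
  have hC : ¬ (p : ℤ) ∣ A ^ 2 - 4 * B := by
    intro h
    apply hpc3
    rw [pow_succ]
    exact mul_dvd_mul_left _ h
  have hB1 : ‖(B : ℚ_[p])‖ = 1 := norm_int_one hB
  have hB0 : (B : ℚ_[p]) ≠ 0 := norm_pos_iff.1 (by rw [hB1]; exact one_pos)
  have hBv : (B : ℚ_[p]).valuation = 0 := (norm_one_of_val hB0).1 hB1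
  have hA1 := Padic.norm_int_le_one (p := p) A
  have hp0 : (p : ℚ_[p]) ≠ 0 := p_ne
  have hn2 : ‖(2 : ℚ_[p])‖ = 1 := two_norm h2
  -- the equation
  have key : ∀ x : ℚ_[p], Pt p ((p : ℤ) * A) ((p : ℤ) ^ 2 * B) x → ∃ X y : ℚ_[p], X ≠ 0 ∧
      x = p * X ∧ y ^ 2 = (p : ℚ_[p]) ^ 3 * (X ^ 3 + A * X ^ 2 + B * X) := by
    rintro x ⟨hx, y, hy⟩
    refine ⟨x / p, y, div_ne_zero hx hp0, by field_simp, ?_⟩
    rw [hy]
    push_cast
    field_simp
  have hval : ∀ X : ℚ_[p], X ≠ 0 → ((p : ℚ_[p]) * X).valuation = 1 + X.valuation := by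
    intro X hX
    rw [Padic.valuation_mul hp0 hX, Padic.valuation_p]
  -- outside the units
  have hout : ∀ X y : ℚ_[p], X ≠ 0 → ‖X‖ ≠ 1 →
      y ^ 2 = (p : ℚ_[p]) ^ 3 * (X ^ 3 + A * X ^ 2 + B * X) →
      Even ((p : ℚ_[p]) * X).valuation ∧ (sq p B = true → IsSquare ((p : ℚ_[p]) * X)) := by
    intro X y hX0 hX h
    rcases lt_or_gt_of_ne hX with h3 | h3
    · have h4 := six_small h2 hB hX0 h3 h
      constructor
      · have h5 := even_of_sq (mul_ne_zero hB0 (mul_ne_zero hp0 hX0)) h4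
        rw [Padic.valuation_mul hB0 (mul_ne_zero hp0 hX0), hBv, zero_add] at h5
        exact h5
      · intro h5
        have h6 : IsSquare (B : ℚ_[p]) := (sq_int h2 hB).2 (of_decide_eq_true h5)
        exact (sq_mul_left hB0 h6).1 h4
    · have h4 := six_large h2 h3 h
      exact ⟨even_of_sq (mul_ne_zero hp0 hX0) h4, fun _ => h4⟩
  refine ⟨⟨?_, ?_⟩, ?_, ?_⟩
  · rintro ⟨hp', x, hx, hodd⟩
    obtain ⟨X, y, hX0, rfl, h⟩ := key x hx
    have hX : ‖X‖ = 1 := by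
      by_contra hX
      exact (Int.not_even_iff_odd.2 hodd) (hout X y hX0 hX h).1
    obtain ⟨u, -, -, hu⟩ := six_unit hX h
    apply decide_eq_true
    apply (sq_int h2 hC).1
    have h5 : ((A ^ 2 - 4 * B : ℤ) : ℚ_[p]) - (((2 * u + A) ^ 2 : ℤ) : ℚ_[p]) =
        ((-4 * ((u : ℤ) ^ 2 + A * u + B) : ℤ) : ℚ_[p]) := by
      push_cast
      ring
    have h6 : ‖((-4 * ((u : ℤ) ^ 2 + A * u + B) : ℤ) : ℚ_[p])‖ < 1 :=
      Padic.norm_intCast_lt_one_iff.2 (hu.mul_left _)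
    apply (near_sq h2 (v := (((2 * u + A) ^ 2 : ℤ) : ℚ_[p])) ?_).2 ?_
    · rw [h5]
      have h7 : ¬ (p : ℤ) ∣ (2 * u + A) ^ 2 := by
        intro h7
        apply hC
        have h8 : (A ^ 2 - 4 * B : ℤ) = (2 * u + A) ^ 2 - 4 * ((u : ℤ) ^ 2 + A * u + B) := by ring
        rw [h8]
        exact dvd_sub h7 (hu.mul_left _)
      rw [norm_int_one h7]
      exact h6
    · exact ⟨((2 * u + A : ℤ) : ℚ_[p]), by push_cast; ring⟩
  · intro h
    obtain ⟨δ, hδ⟩ := (sq_int h2 hC).2 (of_decide_eq_true h)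
    have hC1 : ‖((A ^ 2 - 4 * B : ℤ) : ℚ_[p])‖ = 1 := norm_int_one hC
    have hδ1 : ‖δ‖ ≤ 1 := by
      rw [hδ, norm_mul] at hC1
      by_contra h3
      push Not at h3
      nlinarith
    have hδ2 : δ * δ = (A : ℚ_[p]) ^ 2 - 4 * B := by
      rw [← hδ]
      push_cast
      ring
    let X : ℚ_[p] := (-A + δ) / 2
    have hX : X ^ 2 + A * X + B = 0 := by
      simp only [X]
      field_simp
      linear_combination hδ2
    have hX1 : ‖X‖ ≤ 1 := by
      simp only [X]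
      rw [norm_div, hn2, div_one]
      refine (Padic.nonarchimedean _ _).trans (max_le ?_ hδ1)
      rw [norm_neg]
      exact hA1
    have hXA : ‖X + A‖ ≤ 1 := (Padic.nonarchimedean _ _).trans (max_le hX1 hA1)
    have h3 : X * (X + A) = -B := by linear_combination hX
    have h4 : ‖X‖ * ‖X + A‖ = 1 := by rw [← norm_mul, h3, norm_neg, hB1]
    have hXn : ‖X‖ = 1 := by
      apply le_antisymm hX1
      nlinarith [norm_nonneg X, norm_nonneg (X + A)]
    have hX0 : X ≠ 0 := norm_pos_iff.1 (by linarith)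
    refine ⟨hp, (p : ℚ_[p]) * X, ⟨mul_ne_zero hp0 hX0, 0, ?_⟩, ?_⟩
    · push_cast
      linear_combination -((p : ℚ_[p]) ^ 3 * X) * hX
    · rw [hval X hX0, (norm_one_of_val hX0).1 hXn, add_zero]
      exact odd_one
  · rintro x hx heven hr
    obtain ⟨X, y, hX0, rfl, h⟩ := key x hx
    have hX : ‖X‖ ≠ 1 := by
      intro hX
      rw [hval X hX0, (norm_one_of_val hX0).1 hX, add_zero] at heven
      exact absurd heven (by decide)
    exact (hout X y hX0 hX h).2 hr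
  · rintro x hx hodd hr -
    obtain ⟨X, y, hX0, rfl, h⟩ := key x hx
    have hX : ‖X‖ = 1 := by
      by_contra hX
      exact (Int.not_even_iff_odd.2 hodd) (hout X y hX0 hX h).1
    obtain ⟨u, hup, hXu, hu⟩ := six_unit hX h
    have hun : ‖((u : ℤ) : ℚ_[p])‖ = 1 := by
      have h3 : ‖X - u‖ < ‖X‖ := by rw [hX]; exact hXu
      have h4 := Padic.norm_eq_of_norm_sub_lt_left h3
      rw [← hX, h4]
      norm_cast
    have hpu : ¬ (p : ℤ) ∣ u := by
      intro h3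
      have := Padic.norm_intCast_lt_one_iff.2 h3
      rw [hun] at this
      exact lt_irrefl _ this
    have hsq : IsSquare ((p : ℚ_[p]) * X * p) ↔ jacobiSym (u : ℤ) p = 1 := by
      have h3 : (p : ℚ_[p]) * X * p = (p : ℚ_[p]) ^ 2 * X := by ring
      rw [h3, sq_mul_left (pow_ne_zero 2 hp0) ⟨_, pow_two _⟩, ← sq_int h2 hpu]
      apply near_sq h2
      rw [hun]
      exact_mod_cast hXu
    have hjB : jacobiSym B p = 1 := of_decide_eq_true hr
    rw [hsq]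
    unfold rt
    rw [decide_eq_false_iff_not]
    constructor
    · rintro h3 ⟨u', hu', hroot, hj⟩
      have h4 : (p : ℤ) ∣ ((u' : ℤ) - u) * (u' + u + A) := by
        have h5 : ((u' : ℤ) - u) * (u' + u + A) =
            ((u' : ℤ) ^ 2 + A * u' + B) - ((u : ℤ) ^ 2 + A * u + B) := by ring
        rw [h5]
        exact dvd_sub hroot hu
      rcases (Nat.prime_iff_prime_int.1 hp.1).dvd_or_dvd h4 with h5 | h5
      · have h6 : (u' : ℤ) % p = (u : ℤ) % p := by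
          exact Int.ModEq.symm ((Int.modEq_iff_dvd).2 h5)
        rw [jacobiSym.mod_left' h6, h3] at hj
        norm_num at hj
      · have h6 : ((u : ℤ) * u') % p = B % p := by
          apply Int.ModEq.symm
          rw [Int.modEq_iff_dvd]
          have h7 : (u : ℤ) * u' - B = u * (u' + u + A) - ((u : ℤ) ^ 2 + A * u + B) := by ring
          rw [h7]
          exact dvd_sub (h5.mul_left _) hu
        have h7 : jacobiSym ((u : ℤ) * u') p = 1 := by
          rw [jacobiSym.mod_left' h6, hjB]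
        rw [jacobiSym.mul_left, h3, one_mul, hj] at h7
        norm_num at h7
    · intro h3
      have h4 : Int.gcd (u : ℤ) p = 1 := by
        rw [← Int.isCoprime_iff_gcd_eq_one, isCoprime_comm]
        exact (Prime.coprime_iff_not_dvd (Nat.prime_iff_prime_int.1 hp.1)).2 hpu
      rcases jacobiSym.eq_one_or_neg_one h4 with h5 | h5
      · exact h5
      · exact absurd ⟨u, Finset.mem_range.2 hup, hu, h5⟩ h3

end Pool.Agent.L7h75.EA
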